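import Pool.Agent.Helper90.TS.CStmts

/-!
# MP_79eb7e_lc, module CLRF: the local rank is finite
-/

set_option autoImplicit false

namespace Pool.Agent.Helper90.TS

open FirstOrder Language

/-- no order property, arbitrary finite index types -/
theorem clrf_noorder {L : FirstOrder.Language.{0, 0}} {C : Type} [L.Structure C]
    {S : ℕ → Set C} (hM : Monster L C S) (hst : StableTh L C S) {κ μ : Type} [Finite κ] [Finite μ]
    {E : Set (μ ⊕ κ → C)} (hE : Z0 L E) (a : ℕ → μ → C) (b : ℕ → κ → C) (N1 N2 : ℕ)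
    (ha : ∀ i k, a i k ∈ S N1) (hb : ∀ i k, b i k ∈ S N2)
    (h : ∀ i j, Sum.elim (a i) (b j) ∈ E ↔ i < j) : False := by
  obtain ⟨m, ⟨e1⟩⟩ := Finite.exists_equiv_fin μ
  obtain ⟨n, ⟨e2⟩⟩ := Finite.exists_equiv_fin κ
  have hD : (∅ : Set C).Definable L
      ((fun g : Fin m ⊕ Fin n → C => g ∘ (Sum.map e1 e2)) ⁻¹' E) :=
    Set.Definable.preimage_comp (Sum.map e1 e2) hE
  refine hst (max N1 N2) m n _ hD ⟨fun i => a i ∘ e1.symm, fun j => b j ∘ e2.symm, ?_, ?_, ?_⟩
  · intro i k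
    exact hM.mono (le_max_left N1 N2) (ha i _)
  · intro i k
    exact hM.mono (le_max_right N1 N2) (hb i _)
  · intro i j
    rw [← h i j]
    have : (Sum.elim (a i ∘ e1.symm) (b j ∘ e2.symm)) ∘ (Sum.map e1 e2) =
        Sum.elim (a i) (b j) := by
      funext x
      rcases x with x | x <;> simp
    rw [Set.mem_preimage, this]

theorem clrf_anti {C κ μ : Type} (B : Set (κ → C)) (E : Set (μ ⊕ κ → C)) :
    ∀ (k : ℕ) (K : Set (μ → C)), LR B E (k + 1) K → LR B E k K := by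
  intro k
  induction k with
  | zero =>
    rintro K ⟨y, _, h1, _⟩
    exact h1.mono Set.inter_subset_left
  | succ k ih =>
    rintro K ⟨y, hy, h1, h2⟩
    exact ⟨y, hy, ih _ h1, ih _ h2⟩

theorem clrf_anti' {C κ μ : Type} (B : Set (κ → C)) (E : Set (μ ⊕ κ → C)) (K : Set (μ → C))
    {i k : ℕ} (h : i ≤ k) : LR B E k K → LR B E i K := by
  induction h with
  | refl => exact id
  | step _ ih => exact fun hk => ih (clrf_anti B E _ K hk)

theorem clrf_split (hD : ST_CLRD) (hS : ST_CSAT) {L : FirstOrder.Language.{0, 0}} {C : Type}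
    [L.Structure C] {S : ℕ → Set C} (hM : Monster L C S) {κ μ : Type} [Finite κ] [Finite μ]
    {B : Set (κ → C)} {E : Set (μ ⊕ κ → C)} (hB : Z0 L B) (hBb : Bdd S B) (hE : Z0 L E)
    (K : Set (μ → C)) (hK : (Set.univ : Set C).Definable L K) (hinf : ∀ k, LR B E k K) :
    ∃ y ∈ B, (∀ k, LR B E k (K ∩ {x | Sum.elim x y ∈ E})) ∧
      ∀ k, LR B E k (K \ {x | Sum.elim x y ∈ E}) := by
  have hB' : (Set.univ : Set C).Definable L B := hB.mono (Set.empty_subset _)
  have hE' : (Set.univ : Set C).Definable L E := hE.mono (Set.empty_subset _)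
  have hK1 : (Set.univ : Set C).Definable L ((fun g : κ ⊕ μ → C => g ∘ Sum.inr) ⁻¹' K) :=
    hK.preimage_comp Sum.inr
  have hE1 : (Set.univ : Set C).Definable L ((fun g : κ ⊕ μ → C => g ∘ Sum.swap) ⁻¹' E) :=
    hE'.preimage_comp Sum.swap
  have hsw : ∀ (z : κ → C) (x : μ → C), (Sum.elim z x) ∘ Sum.swap = Sum.elim x z := by
    intro z x
    funext i
    rcases i with i | i <;> simp
  have h1 := fun k => hD L C κ κ μ Set.univ B E _ hB' hE' (hK1.inter hE1) k
  have h2 := fun k => hD L C κ κ μ Set.univ B E _ hB' hE' (hK1.sdiff hE1) k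
  have e1 : ∀ z : κ → C, {x | Sum.elim z x ∈ (fun g : κ ⊕ μ → C => g ∘ Sum.inr) ⁻¹' K ∩
      (fun g : κ ⊕ μ → C => g ∘ Sum.swap) ⁻¹' E} = K ∩ {x | Sum.elim x z ∈ E} := by
    intro z
    ext x
    simp only [Set.mem_ofPred_eq, Set.mem_inter_iff, Set.mem_preimage, hsw, Sum.elim_comp_inr]
  have e2 : ∀ z : κ → C, {x | Sum.elim z x ∈ (fun g : κ ⊕ μ → C => g ∘ Sum.inr) ⁻¹' K \
      (fun g : κ ⊕ μ → C => g ∘ Sum.swap) ⁻¹' E} = K \ {x | Sum.elim x z ∈ E} := by
    intro z
    ext x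
    simp only [Set.mem_ofPred_eq, Set.mem_sdiff, Set.mem_preimage, hsw, Sum.elim_comp_inr]
  simp only [e1] at h1
  simp only [e2] at h2
  have hF : ∀ k, (Set.univ : Set C).Definable L (B ∩ ({z : κ → C | LR B E k
      (K ∩ {x | Sum.elim x z ∈ E})} ∩ {z : κ → C | LR B E k (K \ {x | Sum.elim x z ∈ E})})) :=
    fun k => hB'.inter ((h1 k).inter (h2 k))
  obtain ⟨y, hy⟩ := hS L C S hM κ _ hF (by
    obtain ⟨N, hN⟩ := hBb
    exact ⟨N, fun x hx => hN x hx.1⟩) (by
    intro k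
    obtain ⟨y, hy, a1, a2⟩ := hinf (k + 1)
    refine ⟨y, fun i hi => ⟨hy, ?_, ?_⟩⟩
    · exact clrf_anti' B E _ hi.le a1
    · exact clrf_anti' B E _ hi.le a2)
  exact ⟨y, (hy 0).1, fun k => (hy k).2.1, fun k => (hy k).2.2⟩

/-- the initial segment of length `n` of a branch -/
def clrf_pre (η : ℕ → Bool) : ℕ → List Bool
  | 0 => []
  | n + 1 => η n :: clrf_pre η n

theorem clrf_pre_eq {η η' : ℕ → Bool} : ∀ n : ℕ, (∀ i < n, η i = η' i) →
    clrf_pre η n = clrf_pre η' n := by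
  intro n
  induction n with
  | zero => intro _; rfl
  | succ n ih =>
    intro h
    rw [clrf_pre, clrf_pre, h n (Nat.lt_succ_self n), ih (fun i hi => h i (Nat.lt_succ_of_lt hi))]

/-- the tree of definable sets -/
noncomputable def clrf_nd {α β : Type} (P : Set α → Prop) (R : Set (α × β))
    (Y : {K : Set α // P K} → β)
    (h1 : ∀ K : {K : Set α // P K}, P (K.1 ∩ {x | (x, Y K) ∈ R}))
    (h2 : ∀ K : {K : Set α // P K}, P (K.1 \ {x | (x, Y K) ∈ R}))
    (K0 : {K : Set α // P K}) : List Bool → {K : Set α // P K}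
  | [] => K0
  | true :: s => ⟨_, h1 (clrf_nd P R Y h1 h2 K0 s)⟩
  | false :: s => ⟨_, h2 (clrf_nd P R Y h1 h2 K0 s)⟩

theorem clrf_sec (hP : ST_CPAR) {L : FirstOrder.Language.{0, 0}} {C : Type}
    [L.Structure C] {κ μ : Type} [Finite κ] [Finite μ] {E : Set (μ ⊕ κ → C)} (hE : Z0 L E)
    (y : κ → C) : (Set.univ : Set C).Definable L {x : μ → C | Sum.elim x y ∈ E} := by
  obtain ⟨n, ⟨e⟩⟩ := Finite.exists_equiv_fin κ
  refine (hP L C μ Set.univ _).2 ⟨n, y ∘ e.symm,
    (fun g : Fin n ⊕ μ → C => g ∘ (Sum.elim Sum.inr (fun k => Sum.inl (e k)))) ⁻¹' E,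
    Set.subset_univ _, Set.Definable.preimage_comp _ hE, ?_⟩
  ext x
  have : (Sum.elim (y ∘ e.symm) x) ∘ (Sum.elim Sum.inr (fun k => Sum.inl (e k))) =
      Sum.elim x y := by
    funext i
    rcases i with i | i <;> simp
  simp only [Set.mem_ofPred_eq, Set.mem_preimage, this]

/-- CLRF -/
theorem st_CLRF (hEM : ST_EM) (hD : ST_CLRD) (hS : ST_CSAT) (hP : ST_CPAR) : ST_CLRF := by
  intro L C _ S hM hst κ μ _ _ B E K hB hBb hE hK hKb
  by_contra hcon
  push Not at hcon
  have hsp := clrf_split hD hS hM hB hBb hE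
  have hsec := clrf_sec hP (μ := μ) hE
  set R : Set ((μ → C) × (κ → C)) := {p | Sum.elim p.1 p.2 ∈ E} with hR
  choose Y hYB hY1 hY2 using fun K' : {K : Set (μ → C) //
    (Set.univ : Set C).Definable L K ∧ ∀ k, LR B E k K} => hsp K'.1 K'.2.1 K'.2.2
  set nd := clrf_nd (fun K : Set (μ → C) => (Set.univ : Set C).Definable L K ∧ ∀ k, LR B E k K)
    R Y (fun K => ⟨K.2.1.inter (hsec _), hY1 K⟩) (fun K => ⟨K.2.1.sdiff (hsec _), hY2 K⟩)
    ⟨K, hK, hcon⟩ with hnd
  have nd_t : ∀ s, (nd (true :: s)).1 = (nd s).1 ∩ {x | (x, Y (nd s)) ∈ R} := fun s => rfl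
  have nd_f : ∀ s, (nd (false :: s)).1 = (nd s).1 \ {x | (x, Y (nd s)) ∈ R} := fun s => rfl
  have nd_0 : (nd []).1 = K := rfl
  have nd_sub : ∀ b s, (nd (b :: s)).1 ⊆ (nd s).1 := by
    intro b s
    cases b
    · rw [nd_f]; exact Set.sdiff_subset
    · rw [nd_t]; exact Set.inter_subset_left
  have hdec : ∀ (η : ℕ → Bool) (i k : ℕ), i ≤ k →
      (nd (clrf_pre η k)).1 ⊆ (nd (clrf_pre η i)).1 := by
    intro η i k h
    induction h with
    | refl => exact subset_rfl
    | step _ ih => exact (nd_sub _ _).trans ih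
  have hbr : ∀ η : ℕ → Bool, ∃ x, ∀ n, x ∈ (nd (clrf_pre η n)).1 := by
    intro η
    refine hS L C S hM μ (fun n => (nd (clrf_pre η n)).1) (fun n => (nd _).2.1) hKb ?_
    intro k
    obtain ⟨x, hx⟩ := (nd (clrf_pre η k)).2.2 0
    exact ⟨x, fun i hi => hdec η i k hi.le hx⟩
  choose X hX using hbr
  have hXE : ∀ (η : ℕ → Bool) (n : ℕ),
      (X η, Y (nd (clrf_pre η n))) ∈ R ↔ η n = true := by
    intro η n
    have h := hX η (n + 1)
    rw [clrf_pre] at h
    cases hb : η n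
    · rw [hb, nd_f] at h
      simpa using h.2
    · rw [hb, nd_t] at h
      simpa using h.2
  set F : (ℕ → Bool) → Set (List Bool) := fun η => {s | (X η, Y (nd s)) ∈ R} with hF
  have hinj : Function.Injective F := by
    intro η η' h
    by_contra hne
    have hex : ∃ n, η n ≠ η' n := by
      by_contra hc
      push Not at hc
      exact hne (funext hc)
    classical
    have h1 := Nat.find_spec hex
    have h2 : ∀ i < Nat.find hex, η i = η' i := fun i hi => by
      by_contra hc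
      exact Nat.find_min hex hi hc
    have h3 := clrf_pre_eq _ h2
    have h4 := hXE η (Nat.find hex)
    have h5 := hXE η' (Nat.find hex)
    have h6 : clrf_pre η (Nat.find hex) ∈ F η ↔ clrf_pre η (Nat.find hex) ∈ F η' := by rw [h]
    rw [← h3] at h5
    have h7 : η (Nat.find hex) = true ↔ η' (Nat.find hex) = true := by
      rw [← h4, ← h5]
      exact h6
    apply h1
    rw [Bool.eq_iff_iff]
    exact h7
  have hunc : ¬ (Set.range F).Countable := by
    intro h
    have h1 : Countable (ℕ → Bool) := by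
      have : Countable (Set.range F) := h.to_subtype
      exact (Equiv.ofInjective F hinj).injective.countable
    obtain ⟨f, hf⟩ := exists_surjective_nat (ℕ → Bool)
    obtain ⟨n, hn⟩ := hf (fun n => !f n n)
    have h3 := congrFun hn n
    cases h4 : f n n <;> simp [h4] at h3
  obtain ⟨b, s, hs, hcase⟩ := hEM (List Bool) (Set.range F) hunc
  choose η hη using hs
  have hmem : ∀ i j, b i ∈ s j ↔ (X (η j), Y (nd (b i))) ∈ R := by
    intro i j
    rw [← hη j]
    exact Iff.rfl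
  obtain ⟨N1, hN1⟩ := hKb
  obtain ⟨N2, hN2⟩ := hBb
  have hXK : ∀ η, X η ∈ K := fun η => hX η 0
  rcases hcase with hc | hc
  · -- the complement
    have hEc : Z0 L Eᶜ := Set.Definable.compl hE
    refine clrf_noorder hM hst hEc (fun j => X (η (j + 1))) (fun i => Y (nd (b i))) N1 N2
      (fun i k => hN1 _ (hXK _) k) (fun i k => hN2 _ (hYB _) k) ?_
    intro j i
    have h1 := hc i (j + 1)
    rw [hmem] at h1
    rw [Set.mem_compl_iff]
    have h2 : Sum.elim (X (η (j + 1))) (Y (nd (b i))) ∈ E ↔ i < j + 1 := h1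
    rw [h2]
    omega
  · refine clrf_noorder hM hst hE (fun j => X (η j)) (fun i => Y (nd (b i))) N1 N2
      (fun i k => hN1 _ (hXK _) k) (fun i k => hN2 _ (hYB _) k) ?_
    intro j i
    have h1 := hc i j
    rw [hmem] at h1
    exact h1

end Pool.Agent.Helper90.TS
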